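import Pool.Agent.KS6_36.JEQ.Ineq2

/-! The equality case: the points of the metric polytope at which the quadratic form is maximal are
the balanced cut metrics. -/

set_option autoImplicit false

open scoped RealInnerProductSpace
open MeasureTheory Metric Filter Topology

namespace Pool.Agent.KS6_36.JEQ

open Pool.Agent.R165.Metric
open Pool.Agent.R165.John (ellipsoid)

variable {n : ℕ}

lemma V_ext {d d' : V n} (h : ∀ i j, i ≠ j → ent d i j = ent d' i j) : d = d' := by
  ext e
  obtain ⟨e, he⟩ := e
  induction e using Sym2.ind with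
  | _ i j =>
    have hij : i ≠ j := by simpa using he
    have := h i j hij
    rw [ent_of_ne _ hij, ent_of_ne _ hij] at this
    exact this

lemma le_tsum3 (F : Fin n → Fin n → Fin n → ℝ)
    (hF : ∀ i j k, i ≠ j → j ≠ k → i ≠ k → 0 ≤ F i j k) {i j k : Fin n} (hij : i ≠ j)
    (hjk : j ≠ k) (hik : i ≠ k) : F i j k ≤ tsum3 F := by
  unfold tsum3
  have h0 : ∀ i j k, 0 ≤ (if i ≠ j ∧ j ≠ k ∧ i ≠ k then F i j k else 0) := by
    intro i j k
    split_ifs with h
    · exact hF i j k h.1 h.2.1 h.2.2
    · exact le_rfl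
  have h1 : F i j k = (if i ≠ j ∧ j ≠ k ∧ i ≠ k then F i j k else 0) := by
    rw [if_pos ⟨hij, hjk, hik⟩]
  rw [h1]
  refine le_trans ?_ (Finset.single_le_sum (f := fun i => ∑ j, ∑ k,
    (if i ≠ j ∧ j ≠ k ∧ i ≠ k then F i j k else 0))
    (fun a _ => Finset.sum_nonneg fun b _ => Finset.sum_nonneg fun c _ => h0 a b c)
    (Finset.mem_univ i))
  refine le_trans ?_ (Finset.single_le_sum (f := fun j => ∑ k,
    (if i ≠ j ∧ j ≠ k ∧ i ≠ k then F i j k else 0))
    (fun b _ => Finset.sum_nonneg fun c _ => h0 i b c) (Finset.mem_univ j))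
  exact Finset.single_le_sum (f := fun k =>
    (if i ≠ j ∧ j ≠ k ∧ i ≠ k then F i j k else 0)) (fun c _ => h0 i j c) (Finset.mem_univ k)

lemma KK_nonneg {d : V n} (hd : d ∈ metricPolytope n) (i j k : Fin n) (hij : i ≠ j) (hjk : j ≠ k)
    (hik : i ≠ k) : 0 ≤ KK d i j k := by
  have t1 := hd.2 i j k hij hjk hik
  have t2 := hd.2 j i k hij.symm hik hjk
  have t3 := hd.2 i k j hik hjk.symm hij
  rw [ent_comm d j i] at t2
  rw [ent_comm d k j] at t3
  have u1 : 0 ≤ ent d i j + ent d i k - ent d j k := by linarith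
  have u2 : 0 ≤ ent d j k + ent d i k - ent d i j := by linarith
  unfold KK
  positivity

lemma cut_compl (S : Finset (Fin n)) : cut Sᶜ = cut S := by
  classical
  refine V_ext fun i j _ => ?_
  rw [ent_cut, ent_cut]
  simp only [Finset.mem_compl]
  by_cases h1 : i ∈ S <;> by_cases h2 : j ∈ S <;> simp [h1, h2]

/-- Rigidity: a point of the metric polytope at which `Q` is maximal is a balanced cut metric. -/
theorem eq_case (hn : 3 ≤ n) {δ : ℝ} (h0 : 1 / 2 < δ) (h1 : δ < 2 / 3) {d : V n}
    (hd : d ∈ metricPolytope n) (hQ : Q n δ d = Qmax n δ) :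
    ∃ S : Finset (Fin n), S.card = n / 2 ∧ d = cut S := by
  classical
  have h3 : (3 : ℝ) ≤ n := by exact_mod_cast hn
  have hn2 : (0 : ℝ) < n - 2 := by linarith
  have h0' : 0 < δ := by linarith
  have h1' : 0 < 1 - δ := by linarith
  set E : ℝ := ((n ^ 2 / 4 : ℕ) : ℝ) with hE
  have eE : E * (2 - 3 * δ) / (δ * (1 - δ)) = (2 / δ - 1 / (1 - δ)) * E := by field_simp; ring
  have hs : 0 < 2 / δ - 1 / (1 - δ) := by
    have : 2 / δ - 1 / (1 - δ) = (2 - 3 * δ) / (δ * (1 - δ)) := by field_simp; ring
    rw [this]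
    exact div_pos (by linarith) (by positivity)
  have hQm : Qmax n δ = n * (n - 1) * δ / (2 * (1 - δ)) + (2 / δ - 1 / (1 - δ)) * E := by
    rw [Qmax, ← hE, eE]
  -- the total is at least `E`
  have hS1 : E ≤ tot d := by
    by_contra hc
    rw [not_le] at hc
    have a1 := Q_le_small hn h0' (by linarith) hd
    have a2 := mul_lt_mul_of_pos_left hc hs
    rw [hQ, hQm] at a1
    linarith
  have hl := Q_large2 hn h0.le (by linarith) hd.1 hS1
  rw [hQ] at hl
  have hP0 : 0 ≤ ∑ e, (d e - d e ^ 2) :=
    Finset.sum_nonneg fun e _ => by nlinarith [hd.1 e]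
  have hA : 0 < 1 / (1 - δ) := by positivity
  have hc1 : 0 < (2 * δ - 1) / (1 - δ) := div_pos (by linarith) h1'
  have g1 : 0 ≤ (2 * δ - 1) / (1 - δ) * (tot d - E) := mul_nonneg hc1.le (by linarith)
  have g2 : 0 ≤ 1 / (1 - δ) * ∑ e, (d e - d e ^ 2) := mul_nonneg hA.le hP0
  have hS : tot d = E := by
    have : (2 * δ - 1) / (1 - δ) * (tot d - E) = 0 := by linarith
    rcases mul_eq_zero.1 this with h | h
    · exact absurd h hc1.ne'
    · linarith
  have hP : ∑ e, (d e - d e ^ 2) = 0 := by
    have : 1 / (1 - δ) * ∑ e, (d e - d e ^ 2) = 0 := by linarith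
    rcases mul_eq_zero.1 this with h | h
    · exact absurd h hA.ne'
    · exact h
  have h01 : ∀ e, d e = 0 ∨ d e = 1 := by
    intro e
    have h := (Finset.sum_eq_zero_iff_of_nonneg
      (fun e _ => by nlinarith [hd.1 e])).1 hP e (Finset.mem_univ e)
    have h' : d e * (1 - d e) = 0 := by linarith
    rcases mul_eq_zero.1 h' with h'' | h''
    · exact Or.inl h''
    · exact Or.inr (by linarith)
  have e01 : ∀ i j, ent d i j = 0 ∨ ent d i j = 1 := by
    intro i j
    by_cases h : i = j
    · subst h; exact Or.inl (ent_self d i)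
    · rw [ent_of_ne d h]; exact h01 _
  -- no triple with all distances equal to one
  have hno : ∀ i j k, i ≠ j → j ≠ k → i ≠ k →
      ¬ (ent d i j = 1 ∧ ent d j k = 1 ∧ ent d i k = 1) := by
    rintro i j k hij hjk hik ⟨a1, a2, a3⟩
    have b1 := Q_small2 hn h0' (by linarith) hd
    rw [hQ, hQm, hS] at b1
    have b2 : 1 / δ * tsum3 (KK d) ≤ 0 := by linarith
    have b3 := le_tsum3 (KK d) (KK_nonneg hd) hij hjk hik
    have b4 : KK d i j k = 3 := by
      unfold KK; rw [a1, a2, a3]; norm_num
    rw [b4] at b3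
    have b5 : 0 < 1 / δ * tsum3 (KK d) := mul_pos (by positivity) (by linarith)
    linarith
  -- the cut
  set o : Fin n := ⟨0, by omega⟩ with ho
  set S : Finset (Fin n) := Finset.univ.filter (fun j => ent d o j = 1) with hSdef
  have mS : ∀ j, j ∈ S ↔ ent d o j = 1 := fun j => by simp [hSdef]
  have nS : ∀ j, j ∉ S ↔ ent d o j = 0 := by
    intro j
    rw [mS]
    constructor
    · intro h; exact (e01 o j).resolve_right h
    · intro h; rw [h]; norm_num
  have tri0 : ∀ i j, i ≠ j → ent d i j ≤ ent d o i + ent d o j := by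
    intro i j hij
    by_cases hi : o = i
    · subst hi; rw [ent_self]; linarith
    · by_cases hj : o = j
      · subst hj; rw [ent_self, ent_comm d i o]; linarith
      · have := hd.2 i o j (Ne.symm hi) hj hij
        rw [ent_comm d i o] at this
        linarith
  have tri1 : ∀ i j, i ≠ j → ent d o i ≤ ent d o j + ent d i j := by
    intro i j hij
    by_cases hi : o = i
    · subst hi; rw [ent_self]
      have a1 := (ent_mem hd o j).1
      linarith
    · by_cases hj : o = j
      · subst hj; rw [ent_self, ent_comm d i o]; linarith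
      · have := hd.2 o j i hj (Ne.symm hij) hi
        rw [ent_comm d j i] at this
        linarith
  have hcut : d = cut S := by
    refine V_ext fun i j hij => ?_
    rw [ent_cut]
    by_cases hi : i ∈ S <;> by_cases hj : j ∈ S
    · rw [if_pos hi, if_pos hj]
      have a1 := (mS i).1 hi
      have a2 := (mS j).1 hj
      have oi : o ≠ i := by
        rintro h; rw [← h, ent_self] at a1; norm_num at a1
      have oj : o ≠ j := by
        rintro h; rw [← h, ent_self] at a2; norm_num at a2
      rcases e01 i j with h | h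
      · rw [h]; norm_num
      · exact absurd ⟨a1, h, a2⟩ (hno o i j oi hij oj)
    · rw [if_pos hi, if_neg hj]
      have a1 := (mS i).1 hi
      have a2 := (nS j).1 hj
      have := tri1 i j hij
      rw [a1, a2] at this
      rcases e01 i j with h | h
      · rw [h] at this; norm_num at this
      · rw [h]; norm_num
    · rw [if_neg hi, if_pos hj]
      have a1 := (nS i).1 hi
      have a2 := (mS j).1 hj
      have := tri1 j i hij.symm
      rw [a1, a2, ent_comm d j i] at this
      rcases e01 i j with h | h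
      · rw [h] at this; norm_num at this
      · rw [h]; norm_num
    · rw [if_neg hi, if_neg hj]
      have a1 := (nS i).1 hi
      have a2 := (nS j).1 hj
      have := tri0 i j hij
      rw [a1, a2] at this
      rcases e01 i j with h | h
      · rw [h]; norm_num
      · rw [h] at this; norm_num at this
  -- the cardinality
  have ht := tot_cut S
  rw [← hcut, hS, hE] at ht
  have hle : S.card ≤ n := by
    have := Finset.card_le_univ S
    simpa using this
  have hnat : S.card * (n - S.card) = n ^ 2 / 4 := by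
    have : ((S.card * (n - S.card) : ℕ) : ℝ) = ((n ^ 2 / 4 : ℕ) : ℝ) := by
      rw [Nat.cast_mul, Nat.cast_sub hle]; exact ht.symm
    exact_mod_cast this
  obtain ⟨b, hb⟩ : ∃ b, n = S.card + b := ⟨n - S.card, by omega⟩
  have hb' : n - S.card = b := by omega
  rw [hb'] at hnat
  have hcases : S.card = n / 2 ∨ b = n / 2 := by
    set a := S.card with ha
    have hsq : (a + b) ^ 2 = 4 * (a * b) + (if a ≤ b then (b - a) ^ 2 else (a - b) ^ 2) := by
      split_ifs with hab
      · obtain ⟨c, rfl⟩ := Nat.exists_eq_add_of_le hab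
        rw [Nat.add_sub_cancel_left]; ring
      · rw [not_le] at hab
        obtain ⟨c, hc⟩ := Nat.exists_eq_add_of_le hab.le
        rw [hc, Nat.add_sub_cancel_left]; ring
    rw [hb, hsq] at hnat
    split_ifs at hnat with hab
    · left
      obtain ⟨c, hc⟩ := Nat.exists_eq_add_of_le hab
      rw [hc, Nat.add_sub_cancel_left] at hnat
      have hc2 : c ^ 2 < 4 := by omega
      have hc3 : c < 2 := by nlinarith
      omega
    · right
      rw [not_le] at hab
      obtain ⟨c, hc⟩ := Nat.exists_eq_add_of_le hab.le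
      rw [hc, Nat.add_sub_cancel_left] at hnat
      have hc2 : c ^ 2 < 4 := by omega
      have hc3 : c < 2 := by nlinarith
      omega
  rcases hcases with h | h
  · exact ⟨S, h, hcut⟩
  · refine ⟨Sᶜ, ?_, ?_⟩
    · rw [Finset.card_compl, Fintype.card_fin]; omega
    · rw [cut_compl]; exact hcut

lemma Q_cut_bal (hn : 3 ≤ n) {δ : ℝ} (h0 : 0 < δ) (h1 : δ < 1) {S : Finset (Fin n)}
    (hS : S.card = n / 2) : Q n δ (cut S) = Qmax n δ := by
  refine Q_cut hn h0 h1 S ?_
  have := half_eq n
  rw [card_half] at this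
  rw [hS]; exact this

/-- A point of the polytope lies in no smaller dilate iff it is a balanced cut metric. -/
theorem extremal_iff (hn : 3 ≤ n) {δ : ℝ} (h0 : 1 / 2 < δ) (h1 : δ < 2 / 3) {d : V n}
    (hd : d ∈ metricPolytope n) :
    (∀ t : ℝ, 0 < t → t < √(Qmax n δ) →
      d ∉ AffineMap.homothety (cst δ : V n) t '' ellipsoid (R n δ) (cst δ)) ↔
    ∃ S : Finset (Fin n), S.card = n / 2 ∧ d = cut S := by
  have hpos := Qmax_pos hn h0.le h1.le
  constructor
  · intro h
    refine eq_case hn h0 h1 hd (le_antisymm (Q_le hn h0.le h1.le hd) ?_)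
    by_contra hc
    rw [not_le] at hc
    -- choose t with `Q ≤ t ^ 2 < Qmax`
    set q := max (Q n δ d) (Qmax n δ / 2) with hq
    have hq0 : 0 < q := lt_of_lt_of_le (by linarith) (le_max_right _ _)
    have hq1 : q < Qmax n δ := max_lt hc (by linarith)
    refine h (√q) (Real.sqrt_pos.2 hq0) (Real.sqrt_lt_sqrt hq0.le hq1) ?_
    rw [mem_dilate_iff hn (by linarith) (by linarith) (Real.sqrt_pos.2 hq0), Real.sq_sqrt hq0.le]
    exact le_max_left _ _
  · rintro ⟨S, hS, rfl⟩ t ht0 ht1 hmem
    rw [mem_dilate_iff hn (by linarith) (by linarith) ht0, Q_cut_bal hn (by linarith) (by linarith) hS]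
      at hmem
    have : √(Qmax n δ) ≤ t := Real.sqrt_le_iff.2 ⟨ht0.le, hmem⟩
    linarith

end Pool.Agent.KS6_36.JEQ
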